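import Pool.Agent.Helper88.CR.GoalsB
import Pool.Agent.Helper69.LG.ME

/-! # Packet CR-OM: lower bound for the density of the rough integers -/

set_option autoImplicit false

open Finset Filter Topology

open scoped Classical

namespace Pool.Agent.Helper88.CR

open Pool.Agent.Helper88.PP (pr om)

theorem om_exp {p : ℕ} (hp : 2 ≤ p) :
    Real.exp (-(1 / (p : ℝ)) - (1 / ((p : ℝ) - 1) - 1 / (p : ℝ))) ≤ 1 - 1 / (p : ℝ) := by
  have h2 : (2 : ℝ) ≤ p := by exact_mod_cast hp
  have h3 : 0 < 1 - 1 / (p : ℝ) := by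
    rw [sub_pos, div_lt_one (by linarith)]
    linarith
  rw [← Real.le_log_iff_exp_le h3]
  have h4 := Real.one_sub_inv_le_log_of_pos h3
  have h7 : (p : ℝ) - 1 ≠ 0 := by
    have : 0 < (p : ℝ) - 1 := by linarith
    exact this.ne'
  have h5 : 1 - (1 - 1 / (p : ℝ))⁻¹ = -(1 / ((p : ℝ) - 1)) := by
    have h8 : (p : ℝ) ≠ 0 := by linarith
    have h9 : 1 - 1 / (p : ℝ) = ((p : ℝ) - 1) / p := by field_simp
    rw [h9, inv_div]
    field_simp
    ring
  rw [h5] at h4
  linarith

theorem om_tele (y : ℕ) (hy : 1 ≤ y) (k : ℕ) :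
    ∑ n ∈ Ioc y (y + k), (1 / ((n : ℝ) - 1) - 1 / (n : ℝ)) = 1 / y - 1 / ((y + k : ℕ) : ℝ) := by
  induction k with
  | zero => simp
  | succ k ih =>
    rw [← add_assoc, Finset.sum_Ioc_succ_top (by omega), ih]
    push_cast
    ring

theorem om_lower : StmtOM := by
  obtain ⟨C, hC, hME⟩ := Pool.Agent.Helper69.LG.me
  refine ⟨Real.exp (-(C / Real.log 2) - 1), Real.exp_pos _, fun y z hy hyz => ?_⟩
  have hy2 : (2 : ℝ) ≤ y := by exact_mod_cast hy
  have hly : 0 < Real.log y := Real.log_pos (by linarith)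
  have hlz : 0 < Real.log z := Real.log_pos (by
    have : (y : ℝ) ≤ z := by exact_mod_cast hyz
    linarith)
  have h1 := hME y z hy2 (by exact_mod_cast hyz)
  have hset : (Icc 1 z).filter (fun p : ℕ => p.Prime ∧ (y : ℝ) < (p : ℝ)) = pr y z := by
    unfold pr
    ext p
    simp only [mem_filter, mem_Icc, mem_Ioc, Nat.cast_lt]
    constructor
    · rintro ⟨⟨a, b⟩, c, d⟩
      exact ⟨⟨d, b⟩, c⟩
    · rintro ⟨⟨a, b⟩, c⟩
      exact ⟨⟨by omega, b⟩, c, a⟩
  rw [hset] at h1
  have h2 : ∑ p ∈ pr y z, (1 / ((p : ℝ) - 1) - 1 / (p : ℝ)) ≤ 1 := by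
    calc ∑ p ∈ pr y z, (1 / ((p : ℝ) - 1) - 1 / (p : ℝ))
        ≤ ∑ n ∈ Ioc y z, (1 / ((n : ℝ) - 1) - 1 / (n : ℝ)) := by
          apply sum_le_sum_of_subset_of_nonneg
          · exact filter_subset _ _
          · intro n hn _
            rw [mem_Ioc] at hn
            have h3 : (2 : ℝ) ≤ n := by exact_mod_cast (by omega : 2 ≤ n)
            rw [sub_nonneg]
            exact one_div_le_one_div_of_le (by linarith) (by linarith)
      _ = 1 / y - 1 / z := by
          have h3 := om_tele y (by omega) (z - y)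
          rw [Nat.add_sub_cancel' hyz] at h3
          exact h3
      _ ≤ 1 := by
          have h3 : 1 / (y : ℝ) ≤ 1 := by
            rw [div_le_one (by linarith)]
            linarith
          have h4 : 0 ≤ 1 / (z : ℝ) := by positivity
          linarith
  have h3 : C / Real.log y ≤ C / Real.log 2 :=
    div_le_div_of_nonneg_left hC.le (Real.log_pos (by norm_num)) (Real.log_le_log (by norm_num) hy2)
  calc Real.exp (-(C / Real.log 2) - 1) * (Real.log y / Real.log z)
      = Real.exp (-(C / Real.log 2) - 1) * Real.exp (-Real.log (Real.log z / Real.log y)) := by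
        rw [Real.exp_neg (Real.log (Real.log z / Real.log y)), Real.exp_log (by positivity),
          inv_div]
    _ = Real.exp (-(C / Real.log 2) - 1 + -Real.log (Real.log z / Real.log y)) := by
        rw [← Real.exp_add]
    _ ≤ Real.exp (∑ p ∈ pr y z, (-(1 / (p : ℝ)) - (1 / ((p : ℝ) - 1) - 1 / (p : ℝ)))) := by
        apply Real.exp_le_exp.mpr
        rw [sum_sub_distrib, sum_neg_distrib]
        linarith
    _ = ∏ p ∈ pr y z, Real.exp (-(1 / (p : ℝ)) - (1 / ((p : ℝ) - 1) - 1 / (p : ℝ))) :=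
        Real.exp_sum _ _
    _ ≤ ∏ p ∈ pr y z, (1 - 1 / (p : ℝ)) := by
        apply prod_le_prod (fun _ _ => (Real.exp_pos _).le)
        intro p hp
        exact om_exp (mem_filter.mp hp).2.two_le

end Pool.Agent.Helper88.CR
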