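import Pool.Agent.Helper88.CG.Goals

/-!
# Primes in progressions to large smooth moduli: statements (part A of project CR)

Aim (`StmtPX`): for `Q` the product of the primes up to `w`, `w ≤ log x/(C log log x)`, there is a
prime `p ≤ w` such that every unit class modulo `Q/p` contains at least `c x/(φ log x)` primes of
`(x/16, x)`.

Method (Koukoulopoulos' approach to the prime number theorem in progressions, with a mean square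
over the characters): `χ` modulo `q`, `z ≥ q^8`; the sums over the integers without prime factors
`≤ z` (rough integers) are equidistributed modulo `q`, so `L_z(s, χ) = ∑_{n rough} χ(n) n^(-s)`
and its derivatives `L_z^(j)/j! ≪ (C log z)^j` are bounded, also in mean square over all `χ ≠ 1`.
`L_z(s, χ)` is bounded from below (3-4-1), except for at most one real character, which is removed
together with a prime `p`.  As `P = L'/L = F' - F' F /L` with `F = L - 1`, the derivatives of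
`P - F'` are bounded in `l^1` over the characters, and `F'` is a sum over rough integers.
-/

set_option autoImplicit false

open Finset Filter Topology

open scoped Classical ArithmeticFunction

namespace Pool.Agent.Helper88.CR

open Pool.Agent.Helper88.CG (tw pw th)

/-! ## Sieve -/

/-- `n ≥ 1` without prime factor `≤ z` -/
def rg (z n : ℕ) : Prop := n ≠ 0 ∧ ∀ p, p.Prime → p ∣ n → z < p

/-- `∏_{p ≤ z} (1 - 1/p)` -/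
noncomputable def Wz (z : ℕ) : ℝ := ∏ p ∈ (Icc 1 z).filter Nat.Prime, (1 - 1 / (p : ℝ))

/-- The sum of `1/p` over the primes of `(√z, z]` is bounded.
Proof.  `Pool.Agent.Helper31.LG.mertens` (`∑_{p ≤ w} log p/p ≤ C log w`): for
`p > Nat.sqrt z`, `p^2 > z` (`Nat.sqrt_lt'`), so `log p ≥ (log z)/2`. -/
def StmtF0 : Prop := ∃ C : ℝ, 0 < C ∧ ∀ z : ℕ, 2 ≤ z →
  ∑ p ∈ (Ioc (Nat.sqrt z) z).filter Nat.Prime, 1 / (p : ℝ) ≤ C

/-- Fundamental lemma of the sieve with weights (Brun-Hooley).  `l` is an upper bound sieve of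
level `z^(4b+6)`, `l'` bounds its error.
Proof.  Strong induction on `z`.  `z = 1`: `P` is empty, `l d = [d = 1]`, `l' = 0`.  Let `z ≥ 2`,
`z₁ = Nat.sqrt z < z`, `P₁` the `p ∈ P` with `p ≤ z₁`, `B` the others, and `(l₁, l₁')` the weights
for `z₁, b + 1, P₁`.  For `e ∣ ∏ B` let `T e = μ(e)` if `ω(e) ≤ 2b`, else `0`, `T' e = 1` if
`ω(e) = 2b + 1`, else `0`.  Bonferroni: `0 ≤ T * 1 - 1_B ≤ T' * 1` (for `N` primes of `B` dividing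
`n`, `∑_{i ≤ 2b} (-1)^i C(N,i) = C(N-1, 2b)` for `N ≥ 1`), similarly for the means
`∑ T e/e = ∑_{i ≤ 2b} (-1)^i e_i`, `V_B ≤ ∑ T e/e ≤ V_B + e_{2b+1}`, `e_i` the elementary
symmetric functions of the `1/p`, `e_i ≤ L^i/i!`, `L = ∑_{p ∈ B} 1/p ≤ C₀` (`StmtF0`).  For
`d = d₁ e`, `d₁ ∣ ∏ P₁`, `e ∣ ∏ B`, put `l d = l₁ d₁ T e`, `l' d = l₁' d₁ T e + l₁ d₁ T' e`; the
level is `z₁^(4b+10) z^(2b+1) ≤ z^(4b+6)` because `z₁^2 ≤ z`.  With `A = l₁ * 1 ≥ 1_{P₁}`,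
`A' = l₁' * 1`: `A (T*1) - 1 1_B = (A - 1)(T*1) + 1 ((T*1) - 1_B) ≤ A' (T*1) + A (T'*1)`.  If the
mean of `l₁` is `≤ (1 + ε₁) V₁`, that of `l₁'` `≤ ε₁ V₁`, and `e_{2b+1} ≤ τ V_B`,
`τ = τ_b = e^(2 C₀) C₀^(2b+1)/(2b+1)!` (`V_B ≥ e^(-2L)`), the new `ε` is
`≤ ε₁ (1 + 2τ) + τ`.  So `ε(z, b) ≤ g(b) = exp(2 ∑_{i ≥ b} τ_i) ∑_{i ≥ b} τ_i ≤ C e^(-b)`. -/
def StmtFW : Prop := ∃ C : ℝ, 0 < C ∧ ∀ z b : ℕ, 1 ≤ z → ∀ P : Finset ℕ,
  (∀ p ∈ P, p.Prime ∧ p ≤ z) → ∃ l l' : ℕ → ℝ, (∀ d, |l d| ≤ 1 ∧ |l' d| ≤ 1) ∧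
    (∀ d, l d ≠ 0 ∨ l' d ≠ 0 → d ∣ ∏ p ∈ P, p ∧ d ≤ z ^ (4 * b + 6)) ∧
    (∀ n : ℕ, 1 ≤ n →
      0 ≤ ∑ d ∈ n.divisors, l d - (if ∀ p ∈ P, ¬ p ∣ n then 1 else 0) ∧
      ∑ d ∈ n.divisors, l d - (if ∀ p ∈ P, ¬ p ∣ n then 1 else 0) ≤ ∑ d ∈ n.divisors, l' d) ∧
    ∏ p ∈ P, (1 - 1 / (p : ℝ)) ≤ ∑ d ∈ Icc 1 (z ^ (4 * b + 6)), l d / d ∧
    ∑ d ∈ Icc 1 (z ^ (4 * b + 6)), l d / d
      ≤ (1 + C * Real.exp (-b)) * ∏ p ∈ P, (1 - 1 / (p : ℝ)) ∧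
    ∑ d ∈ Icc 1 (z ^ (4 * b + 6)), l' d / d ≤ C * Real.exp (-b) * ∏ p ∈ P, (1 - 1 / (p : ℝ))

/-- Rough integers in a progression, weighted by a function of small variation.
Proof.  (i) For a modulus `m`, a class and an interval `(Y, 2Y]`:
`|∑_{n ≡ c (m)} f(n) - (1/m) ∑ f(n)| ≤ (2 + τ) B` (blocks of `m` consecutive integers: in each the
difference is at most the variation of `f` in the block; the last incomplete block gives `2B`).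
(ii) If `log Y ≥ 12 log z`: take `StmtFW` with `P` the primes `≤ z` not dividing `q` and
`b = ⌊(log Y/log z - 12)/8⌋`, so that `D = z^(4b+6) ≤ √Y`.  For `d` prime to `q` the conditions
`n ≡ a (q)`, `d ∣ n` are one class modulo `q d`.  With `V = ∏_{p ∈ P} (1 - 1/p)`,
`V/q = Wz z/φ(q)`: the difference is at most
`(1/q) |∑ l_d/d - V| Y B + D (2 + τ) B + B ((Y/q) ∑ l'_d/d + D)`, and `Wz z ≤ C/log z`
(`Pool.Agent.Helper73.RR.prod_le`, `Pool.Agent.Helper37.PP.mp`); `D ≤ √Y ≤ (Y/φ(q)) Y^(-3/8)`.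
(iii) If `log Y < 12 log z` bound both terms: the main term by `(C/log z) Y B/φ(q)`; for the first
use the upper bound sieve `StmtFW` with `b = 0` and `z' = ⌊z^(1/24)⌋` (`z'^6 ≤ z^(1/4) ≤ Y^(1/4)`,
and `V'/q ≤ Wz z'/φ(q) ≤ C'/(φ(q) log z)`); for `z < 2^24` trivially `Y/q + 1 ≤ 2Y/φ(q)`. -/
def StmtBK : Prop := ∃ C c : ℝ, 0 < C ∧ 0 < c ∧ ∀ z q a Y : ℕ, 2 ≤ z → 1 ≤ q → q ^ 8 ≤ z →
  Nat.Coprime a q → z ≤ Y → ∀ (f : ℕ → ℂ) (B τ : ℝ), 0 ≤ B → 0 ≤ τ →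
  (∀ n ∈ Ioc Y (2 * Y), ‖f n‖ ≤ B) → (∀ n ∈ Ioo Y (2 * Y), ‖f (n + 1) - f n‖ ≤ τ * B / Y) →
  ‖∑ n ∈ (Ioc Y (2 * Y)).filter (fun n => n ≡ a [MOD q] ∧ rg z n), f n
      - ((Wz z / (Nat.totient q : ℝ) : ℝ) : ℂ) * ∑ n ∈ Ioc Y (2 * Y), f n‖
    ≤ C * B * (Y / (Nat.totient q : ℝ)) *
      (Real.exp (-(c * (Real.log Y / Real.log z))) / Real.log z
        + (1 + τ) * (Y : ℝ) ^ (-(1 / 4) : ℝ))

/-! ## Dirichlet series over the rough integers -/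

/-- `a(n) (log n)^j/j!` -/
noncomputable def gj (a : ℕ → ℂ) (j n : ℕ) : ℂ :=
  a n * ((Real.log n ^ j / (j.factorial : ℝ) : ℝ) : ℂ)

/-- `∑ a(n) (log n)^j/j! n^(-s)` -/
noncomputable def LL (a : ℕ → ℂ) (j : ℕ) (s : ℂ) : ℂ := LSeries (gj a j) s

/-- `∑ Λ(n) a(n) (log n)^j/j! n^(-s)` -/
noncomputable def PL (a : ℕ → ℂ) (j : ℕ) (s : ℂ) : ℂ :=
  LSeries (fun n => ((ArithmeticFunction.vonMangoldt n : ℝ) : ℂ) * gj a j n) s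

/-- the rough integers in the class `a` modulo `q` -/
noncomputable def ci (z q a n : ℕ) : ℂ := if n ≡ a [MOD q] ∧ rg z n then 1 else 0

/-- the same without `1` -/
noncomputable def cu (z q a n : ℕ) : ℂ := if n ≡ a [MOD q] ∧ rg z n ∧ n ≠ 1 then 1 else 0

/-- the integers `> z` -/
noncomputable def gz (z n : ℕ) : ℂ := if z < n then 1 else 0

/-- the character `χ` at the rough integers -/
noncomputable def ch (z : ℕ) {q : ℕ} (χ : DirichletCharacter ℂ q) (n : ℕ) : ℂ :=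
  if rg z n then χ n else 0

/-- Equidistribution of the rough integers modulo `q`.
Proof.  A rough `n ≠ 1` is `> z`.  Dyadic blocks `(Y, 2Y]`, `Y = 2^i z`, and `StmtBK` with
`f(n) = (log n)^j/j! n^(-s)`, `B = (log 2Y)^j/j! Y^(-σ)` (note `B Y ≤ (log 2Y)^j/j!`),
`τ = C (j + 3 + |t|)` (mean value inequality; `log 2Y ≥ 1`).  Let `c` be as in `StmtBK`.
First part: `log 2Y ≤ 2 log Y` and `(log Y)^j/j! ≤ (2 log z/c)^j exp(c log Y/(2 log z))`, so the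
sum over `i` is at most `(4 log z/c)^j (1/log z) ∑_i exp(-(c/2)(log z + i log 2)/log z)
≤ C (4 log z/c)^j`.  Second part: `(1 + τ) Y^(-1/4) ≤ C (j + 3) Y^(-3/16)` as
`|t| ≤ z^(1/16)`, and `(log Y)^j/j! ≤ 16^j Y^(1/16)`; the sum is `≤ C (j+3) 32^j`.  Everything
converges absolutely for `Re s > 1`. -/
def StmtSC : Prop := ∃ K : ℝ, 1 ≤ K ∧ ∀ z q a : ℕ, 16 ≤ z → 1 ≤ q → q ^ 8 ≤ z →
  Nat.Coprime a q → ∀ (s : ℂ) (j : ℕ), 1 < s.re → s.re ≤ 2 →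
  |s.im| ≤ (z : ℝ) ^ (1 / 16 : ℝ) →
  ‖LL (cu z q a) j s - ((Wz z / (Nat.totient q : ℝ) : ℝ) : ℂ) * LL (gz z) j s‖
    ≤ K / (Nat.totient q : ℝ) * (K * Real.log z) ^ j

/-- The trivial character.
Proof.  `StmtSC` with `q = 1`, `j = 0` (add `1` for `n = 1`), `Wz z ≤ C/log z`, and
`|∑_{n > z} n^(-s) - z^(1-s)/(s-1)| ≤ |s| z^(-σ) ≤ 1` (compare with the integral on each
`[n, n+1]`), so `|∑_{n > z} n^(-s)| ≤ 1/|s-1| + 1 + ..`. -/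
def StmtZB : Prop := ∃ K : ℝ, 1 ≤ K ∧ ∀ z : ℕ, 16 ≤ z → ∀ s : ℂ, 1 < s.re → s.re ≤ 2 →
  |s.im| ≤ (z : ℝ) ^ (1 / 16 : ℝ) →
  ‖LL (ci z 1 0) 0 s‖ ≤ K * (1 + 1 / (Real.log z * ‖s - 1‖))

/-- Bounds for nonprincipal characters, pointwise and in mean square.
Proof.  Let `F_j(χ) = LL (ch z χ) j s - [j = 0]`, `= ∑_c χ(c) LL (cu z q c) j s` (sum over the unit
classes; the rough integers are prime to `q`).  For `χ ≠ 1` one may subtract from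
`LL (cu z q c) j s` the term `A = (Wz z/φ(q)) LL (gz z) j s`, independent of `c`; `StmtSC` gives the
first bound.  Parseval: `∑_χ |∑_c χ(c) v_c|² = φ(q) ∑_c |v_c|²`, with
`|v_c| ≤ (K/φ(q)) (K log z)^j`. -/
def StmtCH : Prop := ∃ K : ℝ, 1 ≤ K ∧ ∀ (z q : ℕ) [NeZero q], 16 ≤ z → q ^ 8 ≤ z →
  ∀ (s : ℂ) (j : ℕ), 1 < s.re → s.re ≤ 2 → |s.im| ≤ (z : ℝ) ^ (1 / 16 : ℝ) →
  (∀ χ : DirichletCharacter ℂ q, χ ≠ 1 →
    ‖LL (ch z χ) j s - (if j = 0 then 1 else 0)‖ ≤ K * (K * Real.log z) ^ j) ∧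
  ∑ χ ∈ (univ : Finset (DirichletCharacter ℂ q)).filter (fun χ => χ ≠ 1),
    ‖LL (ch z χ) j s - (if j = 0 then 1 else 0)‖ ^ 2 ≤ K ^ 2 * (K * Real.log z) ^ (2 * j)

/-- Algebra: the logarithmic derivative.  `L = 1 + F`, `P = L'/L` as power series.
Proof.  In `ℂ⟦X⟧`: `L = 1 + ∑ F_j X^j` has an inverse `G`; `D = ∑ (j+1) F_{j+1} X^j = P L`, so
`P = D G = D - D F G` (as `G = 1 - F G`).  `‖G_i‖ ≤ (1/c) ((1 + K/c) R)^i` by induction from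
`G_i = -(1/L_0) ∑_{1 ≤ m ≤ i} F_m G_{i-m}`.  So
`‖P_k - D_k‖ ≤ ∑_{a+b+i=k} (a+1) ‖F_{a+1}‖ ‖F_b‖ ‖G_i‖`; Cauchy-Schwarz over `S`; at most
`(k+1)^2` triples. -/
def StmtAL : Prop := ∀ (X : Type) (S : Finset X) (F P : X → ℕ → ℂ) (K R c : ℝ), 1 ≤ K → 1 ≤ R →
  0 < c → c ≤ 1 → (∀ χ ∈ S, ∀ j, ‖F χ j‖ ≤ K * R ^ j) → (∀ χ ∈ S, c ≤ ‖1 + F χ 0‖) →
  (∀ j, ∑ χ ∈ S, ‖F χ j‖ ^ 2 ≤ K ^ 2 * R ^ (2 * j)) →
  (∀ χ ∈ S, ∀ j : ℕ, ((j : ℂ) + 1) * F χ (j + 1)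
    = P χ j + ∑ i ∈ range (j + 1), P χ i * F χ (j - i)) →
  ∀ k : ℕ, ∑ χ ∈ S, ‖P χ k - ((k : ℂ) + 1) * F χ (k + 1)‖
    ≤ ((k : ℝ) + 1) ^ 3 * (K ^ 2 / c) * ((1 + K / c) * R) ^ (k + 1)

/-- `log = Λ * 1` with the factors `(log n)^j/j!`.
Proof.  `∑_{dm = n} Λ(d) ∑_{i ≤ j} (log d)^i/i! (log m)^(j-i)/(j-i)! = (log n)^(j+1)/j!`, `ch` is
completely multiplicative; `LSeries_convolution'` or `LSeries_mul'`; summability for
`Re s > 1` (`(log n)^j ≤ C n^ε`). -/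
def StmtPF : Prop := ∀ (z q : ℕ) [NeZero q] (χ : DirichletCharacter ℂ q) (s : ℂ) (j : ℕ),
  1 < s.re → ((j : ℂ) + 1) * LL (ch z χ) (j + 1) s
    = ∑ i ∈ range (j + 1), PL (ch z χ) i s * LL (ch z χ) (j - i) s

/-- 3-4-1.
Proof.  With `N = q * primorial z` and `χ' = changeLevel χ` modulo `N`: for `n ≠ 0`, `n` is prime
to `N` iff it is rough (as `q ≤ z`), so `LL (ch z χ) 0 s = LSeries χ' s`; Mathlib
`DirichletCharacter.norm_LSeries_product_ge_one`. -/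
def StmtP4 : Prop := ∀ (z q : ℕ) [NeZero q], q ≤ z → ∀ (χ : DirichletCharacter ℂ q) (x y : ℝ),
  0 < x → 1 ≤ ‖LL (ci z 1 0) 0 (1 + x)‖ ^ 3 * ‖LL (ch z χ) 0 (1 + x + Complex.I * y)‖ ^ 4 *
    ‖LL (ch z (χ ^ 2)) 0 (1 + x + 2 * Complex.I * y)‖

/-- Two real characters.
Proof.  As `StmtP4` pass to the modulus `N`; Mathlib
`DirichletCharacter.LSeries_eulerProduct_exp_log`; the product is `exp` of a sum over the primes of
`-log(1-u) - log(1-ε u) - log(1-δ u) - log(1-εδ u)`, `u = p^(-1-x)`, `ε, δ ∈ {0, 1, -1}` both zero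
or both nonzero, with the first term missing if both are zero; the real part is `≥ 0`:
`(1-u)(1-εu)(1-δu)(1-εδu)` is `(1-u)^4` or `(1-u^2)^2`. -/
def StmtP2 : Prop := ∀ (z q : ℕ) [NeZero q], q ≤ z → ∀ (χ ψ : DirichletCharacter ℂ q) (x : ℝ),
  χ ^ 2 = 1 → ψ ^ 2 = 1 → 0 < x → 1 ≤ ‖LL (ci z 1 0) 0 (1 + x)‖ * ‖LL (ch z χ) 0 (1 + x)‖ *
    ‖LL (ch z ψ) 0 (1 + x)‖ * ‖LL (ch z (χ * ψ)) 0 (1 + x)‖

/-- Lower bound for the `L` series, with at most one exception.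
Proof.  Let `K` serve in `StmtCH`, `StmtZB`; write `L(s, χ) = LL (ch z χ) 0 s`, `l = log z`.  For
`χ ≠ 1` the derivative is `-LL (ch z χ) 1 s`, of norm `≤ K² l` in the convex region
`1 < Re s ≤ 2`, `|Im s| ≤ z^(1/16)`; so `|L(s) - L(s')| ≤ K² l |s - s'|` there.
(R) Real characters near the real axis.  Choose `c' ≤ 1` with `2 K² c' ≤ √c'/(8 K)`.  At
`σ' = 1 + c'/l`, `StmtP2`, `|L(σ', 1)| ≤ 2K/c'` and `|L(σ', χψ)| ≤ 2K` give for two different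
nonprincipal real `χ, ψ` that one of `|L(σ', χ)|, |L(σ', ψ)|` is `≥ √c'/(2K)`, hence that
character has `|L(s)| ≥ √c'/(4K)` for all `s` with `1 < Re s ≤ σ'`, `|Im s| ≤ c'/l`.
So at most one real character fails this.
(C) `χ ≠ 1`, and `χ² ≠ 1` or `|t| ≥ c'/l`, `|t| ≤ z^(1/32)`.  At `s₀ = 1 + c/l + i t`
(`c ≤ c'` to be chosen): `|L(1 + c/l, 1)| ≤ 2K/c`, `|L(1 + c/l + 2 i t, χ²)| ≤ 2K/c'`
(`StmtCH` or `StmtZB`), so `|L(s₀, χ)| ≥ (c/2K)^(3/4) (c'/2K)^(1/4)`; moving to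
`1 < Re s ≤ 1 + c/l` costs `≤ K² c`, at most half of this if `c` is small.
Take the minimum of the constants; `χ₁` is the possible exception in (R), else `1`. -/
def StmtLO : Prop := ∃ c : ℝ, 0 < c ∧ c ≤ 1 ∧ ∃ z0 : ℕ, ∀ (z q : ℕ) [NeZero q], z0 ≤ z →
  q ^ 8 ≤ z → ∃ χ₁ : DirichletCharacter ℂ q, ∀ χ : DirichletCharacter ℂ q, χ ≠ 1 → χ ≠ χ₁ →
  ∀ s : ℂ, 1 < s.re → s.re ≤ 1 + c / Real.log z → |s.im| ≤ (z : ℝ) ^ (1 / 32 : ℝ) →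
  c ≤ ‖LL (ch z χ) 0 s‖

/-- Removal of a prime.
Proof.  Let `q = primorial w`, `χ₁` from `StmtLO`.  If `χ₁ = 1` take `p = 2`.  Otherwise the
conductor of `χ₁` is `> 1` and divides the squarefree `q`; let `p` be a prime factor of the
conductor.  A character `χ ≠ 1` modulo `q/p` lifts to a character `χ' ≠ 1` modulo `q` which factors
through `q/p`, so its conductor divides `q/p` and is not divisible by `p`; hence `χ' ≠ χ₁`.  At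
rough integers (prime to `q`) `χ'` and `χ` agree. -/
def StmtRM : Prop := ∃ c : ℝ, 0 < c ∧ c ≤ 1 ∧ ∃ z0 : ℕ, ∀ z w : ℕ, z0 ≤ z → 2 ≤ w →
  primorial w ^ 8 ≤ z → ∃ p : ℕ, p.Prime ∧ p ≤ w ∧
  ∀ χ : DirichletCharacter ℂ (primorial w / p), χ ≠ 1 →
  ∀ s : ℂ, 1 < s.re → s.re ≤ 1 + c / Real.log z → |s.im| ≤ (z : ℝ) ^ (1 / 32 : ℝ) →
  c ≤ ‖LL (ch z χ) 0 s‖

/-- Prime powers in classes, as a Dirichlet series.
Proof.  `q = primorial w/p`, `φ = φ(q)`.  By orthogonality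
`PL (ci z q a) k s - (1/φ) PL (ci z 1 0) k s = (1/φ) ∑_{χ ≠ 1} χ(a)⁻¹ PL (ch z χ) k s` (rough
integers are prime to `q`).  `StmtPF` says that `F_j(χ) = LL (ch z χ) j s - [j = 0]`,
`P_j(χ) = PL (ch z χ) j s` satisfy the identity in `StmtAL`; `StmtCH` and `StmtRM` give the
hypotheses, with `R = K log z`, so the contribution of `P_k - (k+1) F_{k+1}` is
`≤ (1/φ) (k+1)^3 (K²/c) ((1 + K/c) K log z)^(k+1)`.  The contribution of `(k+1) F_{k+1}` is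
`(k+1) (LL (cu z q a) (k+1) s - (1/φ) ∑_c LL (cu z q c) (k+1) s)`, at most
`2 (k+1) (K/φ) (K log z)^(k+1)` by `StmtSC`.  Finally `(k+1)^3 ≤ 8^(k+1)`. -/
def StmtPS : Prop := ∃ K c : ℝ, 1 ≤ K ∧ 0 < c ∧ c ≤ 1 ∧ ∃ z0 : ℕ, ∀ z w : ℕ, z0 ≤ z → 2 ≤ w →
  primorial w ^ 8 ≤ z → ∃ p : ℕ, p.Prime ∧ p ≤ w ∧ ∀ a : ℕ, Nat.Coprime a (primorial w / p) →
  ∀ (s : ℂ) (k : ℕ), 1 < s.re → s.re ≤ 1 + c / Real.log z →
  |s.im| ≤ (z : ℝ) ^ (1 / 32 : ℝ) →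
  ‖PL (ci z (primorial w / p) a) k s
      - ((1 / (Nat.totient (primorial w / p) : ℝ) : ℝ) : ℂ) * PL (ci z 1 0) k s‖
    ≤ 1 / (Nat.totient (primorial w / p) : ℝ) * (K * Real.log z) ^ (k + 1)

/-! ## From the Dirichlet series to the primes -/

/-- the periodic tent in `log n`: `tw x n` for `1 ≤ n ≤ x` -/
noncomputable def pt (x n : ℕ) : ℝ :=
  max 0 (1 - |Real.log (4 * n / x) / (4 * Real.log x)
    - round (Real.log (4 * n / x) / (4 * Real.log x))| / (Real.log 4 / (4 * Real.log x)))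

/-- Fourier expansion of the periodic tent.
Proof.  `StmtTF` (`Pool.Agent.Helper5.CG.tf`) with `h = log 4/(4 log x)` and
`u = log(4n/x)/(4 log x) - round(..)`: `pt x n = h + ∑_ν c_ν cos(2π(ν+1) u)`,
`cos(2π(ν+1)u) = Re (e^(-i t log(x/4)) n^(i t))`, `t = 2π(ν+1)/(4 log x)` (the integer part does
not matter), `c_ν ≥ 0`, `h + ∑ c_ν = 1` (value at `u = 0`), `c_ν ≤ C log x/(ν+1)²`.  Exchange the
sums (absolutely convergent): `∑' g(n) pt x n = h H(0) + ∑_ν c_ν Re(e^(-i t_ν log(x/4)) H(t_ν))`;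
the `ν` with `t_ν > T` have total weight `≤ C/T`. -/
def StmtFS : Prop := ∃ C : ℝ, 0 < C ∧ ∀ (x : ℕ) (T E1 E2 : ℝ) (g : ℕ → ℝ), 16 ≤ x → 1 ≤ T →
  Summable g → g 0 = 0 →
  (∀ t : ℝ, |t| ≤ T → ‖∑' n, (g n : ℂ) * (n : ℂ) ^ (Complex.I * t)‖ ≤ E1) →
  (∀ t : ℝ, ‖∑' n, (g n : ℂ) * (n : ℂ) ^ (Complex.I * t)‖ ≤ E2) →
  |∑' n, g n * pt x n| ≤ E1 + C * E2 / T

/-- `k = ⌈log log x⌉` -/
noncomputable def kx (x : ℕ) : ℕ := ⌈Real.log (Real.log x)⌉₊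

/-- the terms of the sum over the prime powers: `Λ(n) (log n)^k/k! n^(-1-k/log x)` -/
noncomputable def fx (x n : ℕ) : ℝ := ArithmeticFunction.vonMangoldt n *
  (Real.log n ^ kx x / ((kx x).factorial : ℝ)) * (n : ℝ) ^ (-(1 + kx x / Real.log x))

/-- Trivial bound.
Proof.  With `δ = k/log x`, `(δ log n/2)^m/m! ≤ n^(δ/2)`, so
`∑ (log n)^(k+1)/k! n^(-1-δ) ≤ (k+1) (2/δ)^(k+1) ∑ n^(-1-δ/2) ≤ (k+1) (2/δ)^(k+1) (1 + 2/δ)`. -/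
def StmtTV : Prop := ∀ x : ℕ, 16 ≤ x → Summable (fx x) ∧ fx x 0 = 0 ∧
  ∑' n, fx x n ≤ (kx x + 1) * (2 * Real.log x / kx x) ^ (kx x + 1) * (1 + 2 * Real.log x / kx x)

/-- The main term, all rough integers.
Proof.  Only the primes of `(x/8, x/2]`, where `tw ≥ 1/2` and (`z < x/8`) which are rough:
`(log n)^k ≥ (log x)^k (1 - log 8/log x)^k`, `n^(-k/log x) ≥ e^(-k)`, and
`∑ log p/p ≥ (2/x) (θ(x/2) - θ(x/8)) ≥ c` (Chebyshev, as in `Pool.Agent.Helper61.CG.a1`). -/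
def StmtMT : Prop := ∃ c : ℝ, 0 < c ∧ ∃ x0 : ℕ, ∀ x z : ℕ, x0 ≤ x → z ^ 2 ≤ x →
  c * (Real.log x ^ kx x * Real.exp (-(kx x : ℝ)) / ((kx x).factorial : ℝ))
    ≤ ∑' n, (if rg z n then fx x n else 0) * pt x n

/-- The copies of the tent.
Proof.  If `n > x` and `pt x n ≠ 0` then `n ∈ [x^(1+4m)/16, x^(1+4m)]` for some `m ≥ 1`.  There are
at most `2 x^(1+4m)/q` such `n` in the class, and `fx x n ≤ ((1+4m) log x)^(k+1)/k! ·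
32 x^(-(1+4m)) e^(-k(1+4m))`; so the sum is `≤ (64/q) (log x)^(k+1) e^(-k)/k! ∑_m (1+4m)^(k+1)
e^(-4mk)`, and `(1+4m) e^(-4m) ≤ 5 e^(-4) e^(-(m-1))`, `(5 e^(-4))^k log x → 0` because
`k ≥ log log x` and `4 - log 5 > 1`. -/
def StmtCY : Prop := ∀ ε : ℝ, 0 < ε → ∃ x0 : ℕ, ∀ x q a : ℕ, x0 ≤ x → 1 ≤ q → q ^ 4 ≤ x →
  Summable (fun n => (if x < n ∧ n ≡ a [MOD q] then fx x n else 0) * pt x n) ∧
  ∑' n, (if x < n ∧ n ≡ a [MOD q] then fx x n else 0) * pt x n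
    ≤ ε / q * (Real.log x ^ kx x * Real.exp (-(kx x : ℝ)) / ((kx x).factorial : ℝ))

/-- PRIMES IN PROGRESSIONS TO LARGE SMOOTH MODULI.
Proof.  `z = primorial w ^ 64`, `q = primorial w/p` from `StmtPS`, `φ = φ(q)`, `k = kx x`,
`s = 1 + k/log x + i t` (`≤ 1 + c/log z` as `log z ≤ 90 w`).  Apply `StmtFS` to
`g(n) = fx x n ([n ≡ a (q), n rough] - (1/φ) [n rough])`, `T = z^(1/32) = (primorial w)^2`:
`E1 = (1/φ) (K log z)^(k+1)` (`StmtPS` at `s = 1 + k/log x - i t`), `E2 = 2 ∑ fx` (`StmtTV`).  Let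
`m0 = (log x)^k e^(-k)/k! ≥ (log x/(e k))^k`.  Then `E1 ≤ (1/φ) m0 (K log z) (K e k log z/log x)^k`
and `K e k log z/log x ≤ e^(-3)` if the constant `C` is large, so `E1 ≤ (1/φ) m0 (log x)^(-1)`;
`E2/T ≤ (1/φ) m0 (log x)^(-1)` because `φ (k+1) (2e)^(k+1) (3 log x)^3 ≤ T`
(`primorial w ≥ (log x)^10`).  By `StmtMT`
`∑_{n ≡ a, rough} fx x n pt x n ≥ (c/2φ) m0`; by `StmtCY` the `n ≤ x` contribute `≥ (c/4φ) m0`;
there `pt x n = tw x n`, only `n ≥ x/16` count, and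
`fx x n ≤ Λ(n) (log x)^k/k! (16/x) e^(-k) 16^(k/log x)`; so `∑_{n ≡ a} Λ(n) tw x n ≥ c' x/φ`; the
prime powers contribute `O(√x log² x)`; divide by `log x`. -/
def StmtPX : Prop := ∃ c C : ℝ, 0 < c ∧ 1 ≤ C ∧ ∃ x0 : ℕ, ∀ x w : ℕ, x0 ≤ x →
  √(Real.log x) ≤ w → C * (w * Real.log (Real.log x)) ≤ Real.log x →
  ∃ p : ℕ, p.Prime ∧ p ≤ w ∧ ∀ a : ℕ, Nat.Coprime a (primorial w / p) →
  c * (x / ((Nat.totient (primorial w / p) : ℝ) * Real.log x)) ≤ th x (primorial w / p) a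

end Pool.Agent.Helper88.CR
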