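import Pool.Agent.Helper88.CR.GoalsB
import Pool.Agent.Helper56.PrimeAsymp

/-! # Packet CR-PI: primes in intervals, by the prime number theorem -/

set_option autoImplicit false

open Finset Filter Topology

open scoped Classical

namespace Pool.Agent.Helper88.CR

theorem pi_card (A B : ℕ) (h : A ≤ B) :
    (((Ioc A B).filter Nat.Prime).card : ℝ) = (Nat.primeCounting B : ℝ) - Nat.primeCounting A := by
  have h1 : ∀ n, Nat.primeCounting n = ((Ioc 0 n).filter Nat.Prime).card := by
    intro n
    unfold Nat.primeCounting Nat.primeCounting'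
    rw [Nat.count_eq_card_filter_range]
    congr 1
    ext p
    simp only [mem_filter, mem_range, mem_Ioc]
    constructor
    · rintro ⟨a, b⟩
      exact ⟨⟨b.pos, by omega⟩, b⟩
    · rintro ⟨⟨a, b⟩, c⟩
      exact ⟨by omega, c⟩
  rw [h1, h1]
  have h2 : (Ioc 0 B).filter Nat.Prime = (Ioc 0 A).filter Nat.Prime ∪ (Ioc A B).filter Nat.Prime := by
    rw [← filter_union, Ioc_union_Ioc_eq_Ioc (Nat.zero_le _) h]
  have h3 : Disjoint ((Ioc 0 A).filter Nat.Prime) ((Ioc A B).filter Nat.Prime) := by
    rw [disjoint_left]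
    intro p hp hp'
    simp only [mem_filter, mem_Ioc] at hp hp'
    omega
  rw [h2, card_union_of_disjoint h3]
  push_cast
  ring

theorem pi : StmtPI := by
  refine ⟨1 / 32, by norm_num, fun m hm => ?_⟩
  have hm0 : (2 : ℝ) ≤ m := by exact_mod_cast hm
  set ε : ℝ := 1 / (256 * m) with hε
  have hε0 : 0 < ε := by positivity
  have hP := Helper56.pi_mul_log_div_tendsto
  have hP2 : ∀ᶠ x : ℝ in atTop, |(Nat.primeCounting ⌊x⌋₊ : ℝ) * Real.log x / x - 1| < ε := by
    have := (Metric.tendsto_nhds.mp hP) ε hε0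
    filter_upwards [this] with x hx
    rwa [Real.dist_eq] at hx
  have hlog : ∀ᶠ x : ℝ in atTop, 256 * (m : ℝ) ≤ Real.log x :=
    Real.tendsto_log_atTop.eventually_ge_atTop _
  obtain ⟨X0, hX0⟩ := eventually_atTop.mp (hP2.and hlog)
  obtain ⟨y0, hy0⟩ := exists_nat_ge (2 * (m : ℝ) * (max X0 16 + 2))
  refine ⟨y0, fun y a hy ha ham => ?_⟩
  have hyr : 2 * (m : ℝ) * (max X0 16 + 2) ≤ y := hy0.trans (by exact_mod_cast hy)
  have hX16 : (16 : ℝ) ≤ max X0 16 := le_max_right _ _
  have hyr2 : 36 * (m : ℝ) ≤ y := by nlinarith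
  set A := a * y / m with hA
  set D := y / (4 * m) with hD
  set B := A + D with hB
  have hm0' : 0 < m := by omega
  -- real sizes
  have hA1 : (A : ℝ) ≤ a * y / m := by
    have : ((a * y / m : ℕ) : ℝ) ≤ ((a * y : ℕ) : ℝ) / m := Nat.cast_div_le
    push_cast at this
    exact this
  have hA2 : (a * y / m : ℝ) - 1 ≤ A := by
    have h1 : a * y < m * (a * y / m + 1) := Nat.lt_mul_div_succ _ hm0'
    have h2 : ((a * y : ℕ) : ℝ) < ((m * (a * y / m + 1) : ℕ) : ℝ) := by exact_mod_cast h1
    push_cast at h2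
    have h3 : (a * y : ℝ) / m < (A : ℝ) + 1 := by
      rw [div_lt_iff₀ (by linarith), mul_comm ((A : ℝ) + 1)]
      exact h2
    linarith
  have hD1 : (D : ℝ) ≤ y / (4 * m) := by
    have : ((y / (4 * m) : ℕ) : ℝ) ≤ (y : ℝ) / ((4 * m : ℕ) : ℝ) := Nat.cast_div_le
    push_cast at this
    exact this
  have hD2 : (y / (4 * m) : ℝ) - 1 ≤ D := by
    have h1 : y < (4 * m) * (y / (4 * m) + 1) := Nat.lt_mul_div_succ _ (by omega)
    have h2 : (y : ℝ) < (((4 * m) * (y / (4 * m) + 1) : ℕ) : ℝ) := by exact_mod_cast h1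
    push_cast at h2
    have h3 : (y : ℝ) / (4 * m) < (D : ℝ) + 1 := by
      rw [div_lt_iff₀ (by linarith), mul_comm ((D : ℝ) + 1)]
      exact h2
    linarith
  have hy0' : (0 : ℝ) < y := by linarith
  have ha1 : (1 : ℝ) ≤ a := by exact_mod_cast ha
  have ham' : (a : ℝ) ≤ m := by exact_mod_cast ham
  have hA3 : (A : ℝ) ≤ y := by
    refine hA1.trans ?_
    rw [div_le_iff₀ (by linarith), mul_comm (y : ℝ)]
    exact mul_le_mul_of_nonneg_right ham' hy0'.le
  have hym : (y : ℝ) / m ≤ a * y / m := by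
    rw [div_le_div_iff_of_pos_right (by linarith)]
    nlinarith
  have hym2 : 2 * (max X0 16 + 2) ≤ (y : ℝ) / m := by
    rw [le_div_iff₀ (by linarith)]
    linarith
  have hAX : max X0 16 ≤ (A : ℝ) := by linarith
  have hD4 : (D : ℝ) ≤ y / m / 4 := by
    refine hD1.trans (le_of_eq ?_)
    rw [div_div, mul_comm]
  have hDA : (D : ℝ) ≤ A := by linarith
  have hD5 : (y : ℝ) / m / 8 ≤ D := by
    have : (y : ℝ) / (4 * m) = y / m / 4 := by rw [div_div, mul_comm]
    rw [this] at hD2
    linarith
  have hBr : (B : ℝ) = A + D := by rw [hB]; push_cast; ring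
  have hB1 : (B : ℝ) ≤ 2 * y := by
    rw [hBr]
    linarith
  have hAB : A ≤ B := Nat.le_add_right _ _
  have hABr : (A : ℝ) ≤ B := by exact_mod_cast hAB
  have hBX : max X0 16 ≤ (B : ℝ) := hAX.trans hABr
  obtain ⟨p1, p2⟩ := hX0 A ((le_max_left _ _).trans hAX)
  obtain ⟨p3, p4⟩ := hX0 B ((le_max_left _ _).trans hBX)
  rw [Nat.floor_natCast] at p1 p3
  have hApos : (0 : ℝ) < A := by linarith
  have hBpos : (0 : ℝ) < B := by linarith
  have hlA : 0 < Real.log A := by linarith
  have hlB : 0 < Real.log B := by linarith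
  have q1 : (Nat.primeCounting A : ℝ) ≤ (1 + ε) * (A / Real.log A) := by
    rw [abs_lt] at p1
    have h1 : (Nat.primeCounting A : ℝ) * Real.log A / A < 1 + ε := by linarith
    rw [div_lt_iff₀ hApos] at h1
    rw [← mul_div_assoc, le_div_iff₀ hlA]
    exact h1.le
  have q2 : (1 - ε) * (B / Real.log B) ≤ (Nat.primeCounting B : ℝ) := by
    rw [abs_lt] at p3
    have h1 : 1 - ε < (Nat.primeCounting B : ℝ) * Real.log B / B := by linarith
    rw [lt_div_iff₀ hBpos] at h1
    rw [← mul_div_assoc, div_le_iff₀ hlB]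
    exact h1.le
  -- comparison of the logarithms
  have q3 : Real.log B ≤ Real.log A + 1 := by
    have h1 : (B : ℝ) ≤ 2 * A := by rw [hBr]; linarith
    have h2 : Real.log B ≤ Real.log (2 * A) := Real.log_le_log hBpos h1
    rw [Real.log_mul (by norm_num) hApos.ne'] at h2
    have := Real.log_two_lt_d9
    linarith
  have q4 : (A : ℝ) / Real.log A ≤ (A + A / (256 * m)) / Real.log B := by
    rw [div_le_div_iff₀ hlA hlB]
    have h1 : Real.log B ≤ Real.log A * (1 + 1 / (256 * m)) := by
      have h2 : 1 ≤ Real.log A * (1 / (256 * m)) := by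
        rw [mul_one_div, le_div_iff₀ (by positivity)]
        linarith
      linarith
    calc (A : ℝ) * Real.log B ≤ A * (Real.log A * (1 + 1 / (256 * m))) := by gcongr
      _ = (A + A / (256 * m)) * Real.log A := by ring
  rw [pi_card A B hAB]
  have q5 : Real.log B ≤ 2 * Real.log y := by
    have h2 : Real.log B ≤ Real.log (2 * y) := Real.log_le_log hBpos hB1
    rw [Real.log_mul (by norm_num) hy0'.ne'] at h2
    have h3 : Real.log 2 ≤ Real.log y := Real.log_le_log (by norm_num) (by linarith)
    linarith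
  have hly : 0 < Real.log y := by linarith
  have q6 : y / m / 16 / Real.log B ≤ (1 - ε) * (B / Real.log B) - (1 + ε) * (A / Real.log A) := by
    have h1 : (1 + ε) * (A / Real.log A) ≤ (1 + ε) * ((A + A / (256 * m)) / Real.log B) :=
      mul_le_mul_of_nonneg_left q4 (by linarith)
    have h2 : y / m / 16 / Real.log B ≤ (1 - ε) * (B / Real.log B)
        - (1 + ε) * ((A + A / (256 * m)) / Real.log B) := by
      have h3 : (1 - ε) * (B / Real.log B) - (1 + ε) * ((A + A / (256 * m)) / Real.log B)
          = ((1 - ε) * B - (1 + ε) * (A + A / (256 * m))) / Real.log B := by ring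
      rw [h3]
      apply div_le_div_of_nonneg_right _ hlB.le
      have h4 : (A : ℝ) / (256 * m) ≤ y / m / 256 := by
        rw [div_div, mul_comm (m : ℝ) 256]
        exact div_le_div_of_nonneg_right hA3 (by positivity)
      have h5 : ε * B ≤ y / m / 128 := by
        calc ε * B ≤ ε * (2 * y) := by gcongr
          _ = y / m / 128 := by rw [hε]; field_simp; norm_num
      have h6 : ε * A ≤ y / m / 256 := by
        calc ε * A ≤ ε * y := by gcongr
          _ = y / m / 256 := by rw [hε]; field_simp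
      have h7 : ε * (A / (256 * m)) ≤ y / m / 256 := by
        calc ε * (A / (256 * m)) ≤ 1 * (y / m / 256) := by
              apply mul_le_mul _ h4 (by positivity) (by norm_num)
              rw [hε, div_le_one (by positivity)]
              linarith
          _ = _ := by ring
      rw [hBr] at h5 ⊢
      have h8 : 0 < (y : ℝ) / m := by positivity
      linarith
    linarith
  calc 1 / 32 * (y / (m * Real.log y)) = y / m / 16 / (2 * Real.log y) := by
        field_simp
        norm_num
    _ ≤ y / m / 16 / Real.log B := by gcongr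
    _ ≤ _ := by linarith

end Pool.Agent.Helper88.CR
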