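import Pool.Agent.Helper88.CR.GoalsB
import Pool.Agent.Helper88.GM.KX

/-! # Packet CR-PM: the parameters -/

set_option autoImplicit false

open Finset Filter Topology

open scoped Classical

namespace Pool.Agent.Helper88.CR

open Pool.Agent.Helper88.PP (pr om QQ)
open Pool.Agent.Helper88.GM (Sr cube)
open Pool.Agent.Helper88.RR (scale)

theorem pm_ev (B C c : ℝ) (E0 : ℕ) (hB : 1 ≤ B) (hC : 1 ≤ C) (hc : 0 < c) :
    ∀ᶠ x : ℕ in atTop, 4 / 3 * (E0 : ℝ) ^ 2 ≤ Real.log x ∧
      20 ≤ Real.log (Real.log x) ∧ 64 * C ≤ Real.log (Real.log x) ∧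
      2 ≤ Real.log (Real.log (Real.log x)) ∧
      4 ≤ Real.log (Real.log (Real.log (Real.log x))) ∧
      B * Real.log (Real.log (Real.log x)) ^ 2 ≤ c * Real.log (Real.log x) ∧
      (√(Real.log x) + 1) * (C * Real.log (Real.log x)) ≤ Real.log x ∧
      4 * Real.log (Real.log x) ^ 2 ≤ Real.log x := by
  have t1 : Tendsto (fun x : ℕ => Real.log (x : ℝ)) atTop atTop :=
    Real.tendsto_log_atTop.comp tendsto_natCast_atTop_atTop
  have t2 : Tendsto (fun x : ℕ => Real.log (Real.log (x : ℝ))) atTop atTop :=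
    Real.tendsto_log_atTop.comp t1
  have t3 : Tendsto (fun x : ℕ => Real.log (Real.log (Real.log (x : ℝ)))) atTop atTop :=
    Real.tendsto_log_atTop.comp t2
  have t4 : Tendsto (fun x : ℕ => Real.log (Real.log (Real.log (Real.log (x : ℝ))))) atTop atTop :=
    Real.tendsto_log_atTop.comp t3
  have e1 : ∀ᶠ u : ℝ in atTop, B * Real.log u ^ 2 ≤ c * u := by
    have h1 : ∀ᶠ u : ℝ in atTop, ‖Real.log u ^ 2‖ ≤ c / B * ‖id u‖ :=
      (Asymptotics.isLittleO_iff.1 Real.isLittleO_pow_log_id_atTop) (by positivity)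
    filter_upwards [h1, eventually_ge_atTop (1 : ℝ)] with u h2 h3
    rw [id, Real.norm_of_nonneg (by positivity), Real.norm_of_nonneg (by linarith)] at h2
    have hB0 : 0 < B := by linarith
    calc B * Real.log u ^ 2 ≤ B * (c / B * u) := mul_le_mul_of_nonneg_left h2 hB0.le
      _ = c * u := by field_simp
  have e2 : ∀ᶠ u : ℝ in atTop, (√u + 1) * (C * Real.log u) ≤ u := by
    have hr : ∀ᶠ u : ℝ in atTop, ‖Real.log u‖ ≤ 1 / (2 * C) * ‖u ^ (1 / 2 : ℝ)‖ :=
      (Asymptotics.isLittleO_iff.1 (isLittleO_log_rpow_atTop (by norm_num))) (by positivity)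
    filter_upwards [hr, eventually_ge_atTop (1 : ℝ)] with u h2 h3
    have hsq : √u = u ^ (1 / 2 : ℝ) := Real.sqrt_eq_rpow u
    rw [← hsq, Real.norm_of_nonneg (Real.log_nonneg h3), Real.norm_of_nonneg (Real.sqrt_nonneg _)]
      at h2
    have hs1 : 1 ≤ √u := by
      rw [Real.one_le_sqrt]
      exact h3
    have hC0 : 0 < C := by linarith
    calc (√u + 1) * (C * Real.log u) ≤ (√u + √u) * (C * (1 / (2 * C) * √u)) := by
          have : 0 ≤ Real.log u := Real.log_nonneg h3
          gcongr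
      _ = √u * √u := by field_simp; ring
      _ = u := Real.mul_self_sqrt (by linarith)
  have e3 : ∀ᶠ u : ℝ in atTop, 4 * Real.log u ^ 2 ≤ u := by
    have h1 : ∀ᶠ u : ℝ in atTop, ‖Real.log u ^ 2‖ ≤ 1 / 4 * ‖id u‖ :=
      (Asymptotics.isLittleO_iff.1 Real.isLittleO_pow_log_id_atTop) (by positivity)
    filter_upwards [h1, eventually_ge_atTop (1 : ℝ)] with u h2 h3
    rw [id, Real.norm_of_nonneg (by positivity), Real.norm_of_nonneg (by linarith)] at h2
    linarith
  filter_upwards [t1.eventually_ge_atTop (4 / 3 * (E0 : ℝ) ^ 2), t2.eventually_ge_atTop 20,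
    t2.eventually_ge_atTop (64 * C), t3.eventually_ge_atTop 2, t4.eventually_ge_atTop 4,
    t2.eventually e1, t1.eventually e2, t1.eventually e3] with x a1 a2 a3 a4 a5 a6 a7 a8
  exact ⟨a1, a2, a3, a4, a5, a6, a7, a8⟩

/-- CR-PM: the parameters. -/
theorem pm (h : StmtOM) : StmtPM := by
  obtain ⟨c4, hc4, hOM⟩ := h
  obtain ⟨C3, hC3, hmp⟩ := Pool.Agent.Helper37.PP.mp
  obtain ⟨E1, hE1⟩ := scale
  obtain ⟨E2, hE2⟩ := cube
  refine ⟨max 1 (max (192 * C3) (2 / c4)), le_max_left _ _, ?_⟩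
  set A : ℝ := max 1 (max (192 * C3) (2 / c4)) with hA
  have hA1 : 1 ≤ A := le_max_left _ _
  have hA2 : 192 * C3 ≤ A := (le_max_left _ _).trans (le_max_right _ _)
  have hA3 : 2 / c4 ≤ A := (le_max_right _ _).trans (le_max_right _ _)
  clear_value A
  intro B C c E0 hB hC hc hc1
  obtain ⟨x0, hx0⟩ := eventually_atTop.1 (pm_ev B C c (max E0 (max E1 E2)) hB hC hc)
  refine ⟨x0, fun x hx => ?_⟩
  obtain ⟨a1, a2, a3, a4, a5, a6, a7, a8⟩ := hx0 x hx
  set l1 := Real.log (x : ℝ) with h1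
  set l2 := Real.log l1 with h2
  set l3 := Real.log l2 with h3
  set l4 := Real.log l3 with h4
  have hl1 : 1600 ≤ l1 := by nlinarith
  have hl2 : 0 < l2 := by linarith
  have hl3 : 0 < l3 := by linarith
  have hl4 : 0 < l4 := by linarith
  have hl0 : 0 ≤ 3 / 4 * l1 := by linarith
  -- the scale
  set E := ⌊Real.sqrt (3 / 4 * l1)⌋₊ with hE
  have hEE : max E0 (max E1 E2) ≤ E := by
    rw [hE]
    apply Nat.le_floor
    apply Real.le_sqrt_of_sq_le
    linarith
  have hEa : (E : ℝ) ^ 2 ≤ 3 / 4 * l1 := by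
    have h1 : (E : ℝ) ≤ Real.sqrt (3 / 4 * l1) := Nat.floor_le (Real.sqrt_nonneg _)
    calc (E : ℝ) ^ 2 ≤ Real.sqrt (3 / 4 * l1) ^ 2 := pow_le_pow_left₀ (Nat.cast_nonneg _) h1 2
      _ = 3 / 4 * l1 := Real.sq_sqrt hl0
  have hEb : 3 / 4 * l1 < ((E : ℝ) + 1) ^ 2 := by
    have h1 : Real.sqrt (3 / 4 * l1) < (E : ℝ) + 1 := Nat.lt_floor_add_one _
    calc 3 / 4 * l1 = Real.sqrt (3 / 4 * l1) ^ 2 := (Real.sq_sqrt hl0).symm
      _ < ((E : ℝ) + 1) ^ 2 := pow_lt_pow_left₀ h1 (Real.sqrt_nonneg _) (by norm_num)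
  obtain ⟨z, z1, z2, z3, z4, z5, z6, z7, z8⟩ :=
    hE1 E x (le_trans (le_max_left _ _) (le_trans (le_max_right _ _) hEE)) hEa hEb
  have hcu : Real.log (Real.log x) ^ 3 ≤ E := by
    obtain ⟨b1, b2⟩ := hE2 E (le_trans (le_max_right _ _) (le_trans (le_max_right _ _) hEE))
    have h1 : 0 ≤ Real.log (Real.log x) := hl2.le
    exact (pow_le_pow_left₀ h1 z7 3).trans b1
  rw [← h1] at z5 z6 z7 z8
  rw [← h2] at z7
  have hEpos : (0 : ℝ) < E := by
    by_contra hcon
    have : (E : ℝ) = 0 := le_antisymm (not_lt.1 hcon) (Nat.cast_nonneg _)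
    rw [this] at z5
    norm_num at z5
    linarith
  have hlogE : 0 < Real.log E := by linarith
  have hzpos : (0 : ℝ) < z := lt_of_lt_of_le (Real.exp_pos _) z1
  have hlz1 : (E : ℝ) ≤ Real.log z := by
    rw [Real.le_log_iff_exp_le hzpos]
    exact z1
  have hlz2 : Real.log z ≤ 2 * E := by
    rw [Real.log_le_iff_le_exp hzpos]
    exact z2
  have hlz0 : 0 < Real.log z := by linarith
  -- w
  set w := ⌊l1 / (C * l2)⌋₊ with hw
  have hC0 : 0 < C := by linarith
  have hCl : 0 < C * l2 := by positivity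
  have hw1 : (w : ℝ) ≤ l1 / (C * l2) := Nat.floor_le (by positivity)
  have hw2 : l1 / (C * l2) < w + 1 := Nat.lt_floor_add_one _
  have hws : √l1 ≤ w := by
    have : √l1 + 1 ≤ l1 / (C * l2) := by
      rw [le_div_iff₀ hCl]
      exact a7
    linarith
  have hwC : C * (w * l2) ≤ l1 := by
    rw [le_div_iff₀ hCl] at hw1
    linarith
  have hs1 : 1 ≤ √l1 := by
    rw [Real.one_le_sqrt]
    linarith
  have hwpos : (0 : ℝ) < w := by linarith
  have hwhalf : l1 / (C * l2) ≤ 2 * w := by linarith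
  have hCl20 : 20 ≤ C * l2 := by
    calc (20 : ℝ) ≤ l2 := a2
      _ = 1 * l2 := by ring
      _ ≤ C * l2 := mul_le_mul_of_nonneg_right hC hl2.le
  have hw20 : (w : ℝ) ≤ l1 / 20 := by
    refine hw1.trans ?_
    exact div_le_div_of_nonneg_left (by linarith) (by norm_num) hCl20
  have hwl1 : (w : ℝ) ≤ l1 := by linarith
  -- logarithms of w
  have g1 : l2 / 2 ≤ Real.log w := by
    have h5 : Real.log (√l1) ≤ Real.log w := Real.log_le_log (by linarith) hws
    rw [Real.log_sqrt (by linarith)] at h5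
    exact h5
  have g2 : Real.log w ≤ l2 := Real.log_le_log hwpos hwl1
  have g1' : 0 < Real.log w := by linarith
  have g3 : l3 / 2 ≤ Real.log (Real.log w) := by
    have h5 : Real.log (l2 / 2) ≤ Real.log (Real.log w) := Real.log_le_log (by linarith) g1
    rw [Real.log_div (by linarith) (by norm_num)] at h5
    have := Real.log_two_lt_d9
    linarith
  have g4 : Real.log (Real.log w) ≤ l3 := Real.log_le_log g1' g2
  have g3' : 0 < Real.log (Real.log w) := by linarith
  have g5 : l4 / 2 ≤ Real.log (Real.log (Real.log w)) := by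
    have h5 : Real.log (l3 / 2) ≤ Real.log (Real.log (Real.log w)) :=
      Real.log_le_log (by linarith) g3
    rw [Real.log_div (by linarith) (by norm_num)] at h5
    have := Real.log_two_lt_d9
    linarith
  -- Rec
  set G : ℝ := l1 * l2 ^ 2 * l4 / l3 ^ 2 with hG
  have hRec : Rec x = G := rfl
  have hBG : B * (l1 * l2) ≤ c * G := by
    rw [hG]
    have h5 : B * (l1 * l2) * l3 ^ 2 ≤ c * (l1 * l2 ^ 2 * l4) := by
      calc B * (l1 * l2) * l3 ^ 2 = (l1 * l2) * (B * l3 ^ 2) := by ring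
        _ ≤ (l1 * l2) * (c * l2) := mul_le_mul_of_nonneg_left a6 (by positivity)
        _ = (c * (l1 * l2 ^ 2)) * 1 := by ring
        _ ≤ (c * (l1 * l2 ^ 2)) * l4 := mul_le_mul_of_nonneg_left (by linarith) (by positivity)
        _ = c * (l1 * l2 ^ 2 * l4) := by ring
    rw [← mul_div_assoc, le_div_iff₀ (by positivity)]
    exact h5
  have hG0 : 0 < G := by positivity
  have hl12 : l1 ≤ l1 * l2 := by nlinarith
  have hl12' : 0 < l1 * l2 := by positivity
  have hcG1 : l1 * l2 ≤ c * G := by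
    calc l1 * l2 = 1 * (l1 * l2) := by ring
      _ ≤ B * (l1 * l2) := mul_le_mul_of_nonneg_right hB hl12'.le
      _ ≤ c * G := hBG
  have hGle : G ≤ l1 * l2 ^ 2 := by
    rw [hG, div_le_iff₀ (by positivity)]
    have h5 : l4 ≤ l3 := by
      have := Real.log_le_sub_one_of_pos hl3
      linarith
    have h6 : l4 ≤ l3 ^ 2 := by nlinarith
    exact mul_le_mul_of_nonneg_left h6 (by positivity)
  -- y
  set y := ⌈c * G⌉₊ with hy
  have hy1 : c * G ≤ y := Nat.le_ceil _
  have hy2 : (y : ℝ) < c * G + 1 := Nat.ceil_lt_add_one (by positivity)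
  have hy3 : (y : ℝ) ≤ 2 * (c * G) := by linarith
  have hy4 : (y : ℝ) ≤ 2 * (l1 * l2 ^ 2) := by
    calc (y : ℝ) ≤ 2 * (c * G) := hy3
      _ ≤ 2 * (1 * (l1 * l2 ^ 2)) := by gcongr
      _ = _ := by ring
  have hy5 : (y : ℝ) ≤ l1 ^ 2 := by
    calc (y : ℝ) ≤ 2 * (l1 * l2 ^ 2) := hy4
      _ = l1 * (2 * l2 ^ 2) := by ring
      _ ≤ l1 * l1 := mul_le_mul_of_nonneg_left (by nlinarith) (by linarith)
      _ = l1 ^ 2 := by ring
  have hly : l1 ≤ y := by linarith
  have hyz : (y : ℝ) ≤ z := hy5.trans z6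
  have hyz' : y ≤ z := by exact_mod_cast hyz
  have hy2' : 2 ≤ y := by
    have : (2 : ℝ) ≤ y := by linarith
    exact_mod_cast this
  have hlogy1 : l2 ≤ Real.log y := Real.log_le_log (by linarith) hly
  have hlogy2 : Real.log y ≤ 2 * l2 := by
    have h5 : Real.log y ≤ Real.log (l1 ^ 2) := Real.log_le_log (by linarith) hy5
    rw [Real.log_pow] at h5
    push_cast at h5
    exact h5
  -- om
  have hom1 : om y z ≤ C3 * (2 * l2 / E) := by
    refine (hmp y z hy2' hyz').trans ?_
    gcongr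
  have hom2 : c4 * (l2 / (2 * E)) ≤ om y z := by
    refine le_trans ?_ (hOM y z hy2' hyz')
    gcongr
  refine ⟨E, z, w, y, le_trans (le_max_left _ _) hEE, ⟨z1, z3, z4, hly, hy5, hcu⟩, hyz', hws, hwC,
    ?_, ?_, ?_, hy1, ?_, ?_, ?_, ?_⟩
  · unfold QQ
    apply primorial_dvd_primorial
    exact Nat.le_floor hw20
  · calc (w : ℝ) * Real.log w ≤ l1 * l2 := by gcongr
      _ ≤ c * G := hcG1
      _ ≤ y := hy1
  · calc (y : ℝ) ≤ 2 * (l1 * l2 ^ 2) := hy4
      _ = 2 * (C * l2 * l2 ^ 2) * (l1 / (C * l2)) := by field_simp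
      _ ≤ 2 * (C * l2 * l2 ^ 2) * (2 * w) := by gcongr
      _ = 64 * C * (w * (l2 ^ 3 / 16)) := by ring
      _ ≤ l2 * (w * (l2 ^ 3 / 16)) := by gcongr
      _ = w * (l2 / 2) ^ 4 := by ring
      _ ≤ w * Real.log w ^ 4 := by gcongr
  · have h5 : (y : ℝ) * Real.log (Real.log w) ^ 2 /
        (Real.log w ^ 2 * Real.log (Real.log (Real.log w))) ≤ 16 * c * l1 := by
      calc (y : ℝ) * Real.log (Real.log w) ^ 2 /
            (Real.log w ^ 2 * Real.log (Real.log (Real.log w)))
          ≤ (2 * (c * G)) * l3 ^ 2 / ((l2 / 2) ^ 2 * (l4 / 2)) := by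
            apply div_le_div₀ (by positivity) _ (by positivity) (by gcongr)
            gcongr
        _ = 16 * c * l1 := by
            rw [hG]
            field_simp
            ring
    have h6 : 0 ≤ om y z := le_trans (by positivity) hom2
    calc (y : ℝ) * Real.log (Real.log w) ^ 2 /
          (Real.log w ^ 2 * Real.log (Real.log (Real.log w))) * om y z
        ≤ 16 * c * l1 * (C3 * (2 * l2 / E)) := by
          apply mul_le_mul h5 hom1 h6 (by positivity)
      _ ≤ 16 * c * (2 * (E : ℝ) ^ 2) * (C3 * (2 * (3 * Real.log E) / E)) := by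
          gcongr
      _ = 192 * C3 * c * (E * Real.log E) := by
          field_simp
          ring
      _ ≤ A * c * (E * Real.log E) := by
          have : 0 ≤ c * (E * Real.log E) := by positivity
          nlinarith
  · rw [div_le_div_iff₀ (by positivity) hEpos]
    have h5 : 2 ≤ A * c4 := by
      rw [div_le_iff₀ hc4] at hA3
      exact hA3
    have h6 : c4 * l2 ≤ om y z * (2 * E) := by
      have := hom2
      rw [← mul_div_assoc, div_le_iff₀ (by positivity)] at this
      exact this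
    calc Real.log w * E ≤ l2 * E := by gcongr
      _ = (1 / 2) * (2 * (l2 * E)) := by ring
      _ ≤ (1 / 2) * ((A * c4) * (l2 * E)) := by gcongr
      _ = (1 / 2) * A * E * (c4 * l2) := by ring
      _ ≤ (1 / 2) * A * E * (om y z * (2 * E)) := by gcongr
      _ = A * om y z * (E : ℝ) ^ 2 := by ring
      _ ≤ A * om y z * (3 / 4 * l1) := by
          have : 0 ≤ om y z := le_trans (by positivity) hom2
          gcongr
      _ ≤ om y z * (A * l1) := by
          have : 0 ≤ om y z := le_trans (by positivity) hom2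
          have h7 : 0 ≤ A * om y z * l1 := by positivity
          linarith
  · rw [div_le_div_iff₀ hEpos (by linarith)]
    calc om y z * l1 ≤ C3 * (2 * l2 / E) * (2 * (E : ℝ) ^ 2) := by
          apply mul_le_mul hom1 z5 (by linarith) (by positivity)
      _ = 4 * C3 * l2 * E := by field_simp; ring
      _ ≤ 4 * C3 * (2 * Real.log w) * E := by
          gcongr
          linarith
      _ = 8 * C3 * (Real.log w * E) := by ring
      _ ≤ A * (Real.log w * E) := by
          apply mul_le_mul_of_nonneg_right _ (by positivity)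
          linarith
      _ = A * Real.log w * E := by ring
  · calc B * (l1 * Real.log w) ≤ B * (l1 * l2) := by gcongr
      _ ≤ c * G := hBG
      _ ≤ y := hy1

end Pool.Agent.Helper88.CR
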