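import Pool.Agent.Helper11.CR.F0
import Pool.Agent.Helper67.CR.FW
import Pool.Agent.Helper94.CR.BK
import Pool.Agent.Helper40.CR.SC
import Pool.Agent.Helper55.CR.ZB
import Pool.Agent.Helper77.CR.CH
import Pool.Agent.Helper8.CR.AL
import Pool.Agent.Helper8.CR.PF
import Pool.Agent.Helper8.CR.P4
import Pool.Agent.Helper58.CR.P2
import Pool.Agent.Helper47.CR.LO
import Pool.Agent.Helper8.CR.RM
import Pool.Agent.Helper42.CR.PS
import Pool.Agent.Helper61.CR.FS
import Pool.Agent.Helper61.CR.TV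
import Pool.Agent.Helper61.CR.MT
import Pool.Agent.Helper61.CR.CY
import Pool.Agent.Helper39.CR.PX
import Pool.Agent.Helper76.CR.SQ
import Pool.Agent.Helper85.CR.SE
import Pool.Agent.Helper88.CR.PI
import Pool.Agent.Helper88.CR.OM
import Pool.Agent.Helper88.CR.PM
import Pool.Agent.Helper64.CR.RC
import Pool.Agent.Helper80.CR.PJ
import Pool.Agent.Helper32.CR.FR
import Pool.Agent.Helper80.CR.G2
import Pool.Agent.Helper83.CR.CR
import Pool.Agent.Helper88.CG.Main

set_option autoImplicit false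

namespace Pool.Agent.Helper88.CR

theorem mSC : StmtSC :=
  Pool.Agent.Helper40.CR.sc (Pool.Agent.Helper94.CR.bk (Pool.Agent.Helper67.CR.fw
    Pool.Agent.Helper11.CR.f0))

theorem mZB : StmtZB := Pool.Agent.Helper55.CR.zb mSC

theorem mCH : StmtCH := Pool.Agent.Helper77.CR.ch mSC

theorem mLO : StmtLO :=
  Pool.Agent.Helper47.CR.lo mCH mZB Pool.Agent.Helper8.CR.p4 Pool.Agent.Helper58.CR.p2

theorem mPS : StmtPS :=
  Pool.Agent.Helper42.CR.ps mSC mCH Pool.Agent.Helper8.CR.al Pool.Agent.Helper8.CR.pf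
    (Pool.Agent.Helper8.CR.rm mLO)

theorem mPX : StmtPX :=
  Pool.Agent.Helper39.CR.px mPS Pool.Agent.Helper61.CR.fs Pool.Agent.Helper61.CR.tv
    Pool.Agent.Helper61.CR.mt Pool.Agent.Helper61.CR.cy

theorem mPJ : StmtPJ := Pool.Agent.Helper80.CR.pj mPX

theorem mLQ : StmtLQ := Pool.Agent.Helper76.CR.lq CG.mLB

theorem mKR : StmtKR := Pool.Agent.Helper76.CR.kr CG.mKQ

theorem mPQ : StmtPQ := Pool.Agent.Helper76.CR.pq CG.mPB

theorem mPM : StmtPM := pm om_lower

theorem mFR (h : StmtRC) : StmtFR :=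
  Pool.Agent.Helper32.CR.fr mLQ mKR mPQ h mPM mPJ CG.mS1 CG.mVP

theorem mCR' (h : StmtRN) : StmtCR :=
  Pool.Agent.Helper83.CR.cr (mFR (Pool.Agent.Helper64.CR.rc h Pool.Agent.Helper85.CR.se pi))
    Pool.Agent.Helper80.CR.g2

end Pool.Agent.Helper88.CR
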