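import Pool.Agent.Helper88.CR.GoalsA
import Pool.Agent.Helper88.LG.Goals

/-!
# Chains of gaps of record size: statements (part B of project CR)

Main theorem (`StmtCR`): there is `c > 0` such that for every `k ≥ 1` and all large `x` there are
`k` consecutive prime gaps up to `x`, all of them at least
`(c/k²) log x (log_2 x)^2 (log_4 x)/(log_3 x)^2`.

As project CG, but the class modulo `Q/p`, `Q` the product of the primes up to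
`w ≈ log x/(C log log x)`, is chosen by Rankin's method: `0` modulo the primes `> t`, by averaging
modulo the primes `≤ t`.  So a window of length `y ≈ c · record` contains at most `c' log x` points
prime to `Q/p` (`StmtRC`); `M` blocks containing exactly `s` of these points each are left alone,
all other points are killed by the weight.  The primes in the class are provided by `StmtPX`.
-/

set_option autoImplicit false

open Finset Filter Topology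

open scoped Classical

namespace Pool.Agent.Helper88.CR

open Pool.Agent.Helper88.PP (pr Rg om Sf SS uu vv ee LA VV QQ cost)
open Pool.Agent.Helper88.RR (gg ab TB WB nz DB VM)
open Pool.Agent.Helper88.GM (NI XI gB Sr In)
open Pool.Agent.Helper88.CG (tw pw th Wt Dt qE mE)

/-- `log x (log_2 x)^2 (log_4 x)/(log_3 x)^2` -/
noncomputable def Rec (x : ℝ) : ℝ := Real.log x * Real.log (Real.log x) ^ 2 *
  Real.log (Real.log (Real.log (Real.log x))) / Real.log (Real.log (Real.log x)) ^ 2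

/-! ## The statements of CG for divisors of `QQ x` -/

/-- `StmtLB` for `Q ∣ QQ x`.
Proof.  `NI u v Q b` is the disjoint union of the `NI u v (QQ x) b'`, `b' < QQ x`, `b' % Q = b`
(there are `QQ x/Q` such `b'`), and `XI u v Q = (QQ x/Q) XI u v (QQ x)`; sum `CG.StmtLB` over
`b'` (`P`, `Wt`, `Dt` do not depend on `b'`). -/
def StmtLQ : Prop := ∀ η : ℝ, 0 < η → ∃ E0 : ℕ, ∀ E z x y : ℕ, E0 ≤ E → Sr E z x y →
  ∀ Q b : ℕ, Q ∣ QQ x → b < Q → ∀ P : Finset ℕ, P ⊆ Icc 1 y →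
  (P.card : ℝ) * om y z ≤ (E : ℝ) ^ 2 / 2 → ∀ j ∈ Icc 1 y, j ∉ P →
  Dt E z y P * ((1 - η) * (∑ n ∈ NI (x / 32) x Q b, pw x (n + j))
      - η * (XI (x / 32) x Q * (om y z / E)))
    ≤ ∑ n ∈ NI (x / 32) x Q b, pw x (n + j) * Wt E z y P n ^ 2

/-- `StmtKQ` for `Q ∣ QQ x`. Proof: as `StmtLQ`. -/
def StmtKR : Prop := ∃ c : ℝ, 0 < c ∧ ∀ η : ℝ, 0 < η → ∃ E0 : ℕ, ∀ E z x y : ℕ, E0 ≤ E →
  Sr E z x y → ∀ Q b : ℕ, Q ∣ QQ x → b < Q → ∀ P : Finset ℕ, P ⊆ Icc 1 y →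
  (P.card : ℝ) * om y z ≤ c * (E * Real.log E) →
  ∑ n ∈ NI (x / 32) x Q b, Wt E z y P n ^ 2 * ((P.filter (fun h => (n + h).Prime)).card : ℝ)
    ≤ η * (XI (x / 32) x Q * Dt E z y P)

/-- `StmtPB` for `Q ∣ QQ x`. Proof: as `StmtLQ`. -/
def StmtPQ : Prop := ∃ C : ℝ, 0 < C ∧ ∃ E0 : ℕ, ∀ E z x y : ℕ, E0 ≤ E → Sr E z x y →
  ∀ Q b : ℕ, Q ∣ QQ x → b < Q → ∀ P : Finset ℕ, P ⊆ Icc 1 y →
  (P.card : ℝ) * om y z ≤ (E : ℝ) ^ 2 / 2 →
  ∀ j ∈ Icc 1 y, ∀ j' ∈ Icc 1 y, j ∉ P → j' ∉ P → j ≠ j' →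
  ∑ n ∈ (NI (x / 32) x Q b).filter (fun n => (n + j).Prime ∧ (n + j').Prime), Wt E z y P n ^ 2
    ≤ C * (XI (x / 32) x Q * Dt E z y P) * (om y z / E) ^ 2

/-! ## The class -/

/-- Rankin's parameter.
Proof.  `Pool/Agent/Helper73/RR/RK.lean` up to the bound `hS0`, with `H ≤ w (log w)^4` instead of
`w (log w)^2` (only constants change): `u = C' L/l3`, `v = l1/u`, `t = ⌊exp v⌋`, where
`l1 = log w`, `L = log l1`, `l3 = log L`; `(log w)^4 ≤ t` because `v ≥ 8 L`. -/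
def StmtRN : Prop := ∃ C : ℝ, 1 ≤ C ∧ ∃ w0 : ℕ, ∀ w H : ℕ, w0 ≤ w → w ≤ H →
  (H : ℝ) ≤ w * Real.log w ^ 4 → ∃ t : ℕ, 2 ≤ t ∧ t ≤ w ∧ Real.log w ^ 4 ≤ t ∧
  (((Icc 1 H).filter (fun h : ℕ => ∀ p, p.Prime → t < p → p ≤ w → ¬ p ∣ h)).card : ℝ)
    ≤ C * (H * Real.log (Real.log w) / Real.log w) ∧
  Real.log w * Real.log (Real.log (Real.log w)) / (C * Real.log (Real.log w)) ≤ Real.log t ∧
  Real.log t ≤ Real.log w * Real.log (Real.log (Real.log w)) / Real.log (Real.log w)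

/-- Second moment, over the classes modulo `q = ∏ T`, of the number of primes `j` of `(u, u + H]`
with `(b + j, q) = 1`.
Proof.  Diagonal: `#A φ(q)`, `A` the primes of `(u, u+H]`, `#A ≤ C H/log H`.  For `j ≠ j'`,
`d = |j - j'|`: `#{b < q : (b+j, q) = (b+j', q) = 1} = ∏_{p ∈ T, p ∣ d} (p-1) ∏_{p ∤ d} (p-2)
≤ (φ(q)²/q) ∏_{p ∣ d} (1 - 1/p)⁻¹ = (φ(q)²/q) ∑_{e ∣ d} μ²(e)/φ(e)`.  The number of pairs with
`e ∣ d`, for `e ≤ √H`: at most `#A · C H/(φ(e) log H)` (`Pool.Agent.Helper27.LG.bg`,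
Brun-Titchmarsh with an arbitrary `b`, i.e. in arbitrary intervals; `j > u ≥ H > e` is prime
to `e`); for `√H < e < H`: at most `#A · 2H/e`.  `∑ 1/φ(e)² < ∞`, and
`∑_{e > √H} 1/(e φ(e)) ≤ C H^(-1/4)`. -/
def StmtSE : Prop := ∃ C : ℝ, 1 ≤ C ∧ ∃ H0 : ℕ, ∀ u H : ℕ, H0 ≤ H → H ≤ u → ∀ T : Finset ℕ,
  (∀ p ∈ T, p.Prime) →
  ∑ b ∈ range (∏ p ∈ T, p), ((((Ioc u (u + H)).filter (fun j => j.Prime ∧
      Nat.Coprime (b + j) (∏ p ∈ T, p))).card : ℝ)) ^ 2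
    ≤ C * ((H / Real.log H) ^ 2 * ((Nat.totient (∏ p ∈ T, p) : ℝ) ^ 2 / (∏ p ∈ T, p : ℕ))
        + H / Real.log H * (Nat.totient (∏ p ∈ T, p) : ℝ))

/-- Primes in the intervals `(a y/m, a y/m + y/(4m)]`, by the prime number theorem
(`Pool.Agent.Helper56.PrimeAsymp`, `π(x) log x/x → 1`). -/
def StmtPI : Prop := ∃ c : ℝ, 0 < c ∧ ∀ m : ℕ, 2 ≤ m → ∃ y0 : ℕ, ∀ y a : ℕ, y0 ≤ y → 1 ≤ a →
  a ≤ m → c * (y / (m * Real.log y))
    ≤ (((Ioc (a * y / m) (a * y / m + y / (4 * m))).filter Nat.Prime).card : ℝ)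

/-- THE CHOICE OF THE CLASS, WITH BLOCKS.
Proof.  Let `t` be as in `StmtRN` (`H = y`), `p' = p`, `q₁` the product of the primes `≤ t`
different from `p`, `q₂` that of the primes of `(t, w]` different from `p`, `q = q₁ q₂`.  For
`b₁ < q₁` let `b < q`, `b ≡ b₁ (q₁)`, `b ≡ 0 (q₂)`; then `(b + h, q) = 1` iff `(b₁ + h, q₁) = 1` and
`(h, q₂) = 1`.  Average over `b₁`.
(i) Let `Tot(b₁)` be the number of such `h ≤ y`; the average is
`(φ(q₁)/q₁) #{h ≤ y : (h, q₂) = 1}`; `φ(q₁)/q₁ ≤ 2 ∏_{p ≤ t} (1 - 1/p) ≤ C/log t`; the number is at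
most that in `StmtRN` plus `y/t` (multiples of `p`, if `p > t`).  So the average is
`≤ τ = C' y (log_2 w)²/((log w)² log_3 w)`.
(ii) For `1 ≤ a ≤ M'` let `m = M' + 1`, `u = a y/m`, `H = y/(4m)`, `X_a(b₁)` the number of primes
`j ∈ (u, u + H]` with `(b₁ + j, q₁) = 1` (`j > w`, so `(j, q₂) = 1`).  The average is
`μ_a = #A_a φ(q₁)/q₁ ≥ c y/(m log y log t)` (`StmtPI`; `φ(q₁)/q₁ ≥ c/log t`, `StmtPH`), which is
`≥ 2 y/(log w)² ≥ 2 s` and `≥ 1`, and the average of `X_a²` is `≤ C μ_a²` (`StmtSE`).  By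
Paley-Zygmund `X_a ≥ s` for at least `κ q₁` of the `b₁`, `κ > 0` absolute.
Take `M' = ⌈2M/κ⌉`.  The average of `#{a ≤ M' : X_a ≥ s} - (κ M'/2) Tot/τ` is `≥ κ M'/2`; for a
`b₁` with at least this value, there are `≥ κ M'/2 ≥ M` indices `a` with `X_a ≥ s`, and
`Tot ≤ 2 τ/κ`.  For the first `M` of these `a`: `u = a y/m`, and `v ≤ u + y/(4m)` minimal such
that `(u, v]` contains exactly `s` points.  Two of the intervals `(a y/m, a y/m + y/(4m)]` are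
at distance `≥ y/(2m)`. -/
def StmtRC : Prop := ∃ C : ℝ, 1 ≤ C ∧ ∀ M : ℕ, 1 ≤ M → ∃ w0 : ℕ, ∀ w p y s : ℕ, w0 ≤ w →
  p.Prime → p ≤ w → w * Real.log w ≤ y → (y : ℝ) ≤ w * Real.log w ^ 4 →
  (s : ℝ) ≤ y / Real.log w ^ 2 → ∃ b : ℕ, b < primorial w / p ∧
  (((Icc 1 y).filter (fun h => Nat.Coprime (b + h) (primorial w / p))).card : ℝ)
    ≤ C * (y * Real.log (Real.log w) ^ 2 / (Real.log w ^ 2 * Real.log (Real.log (Real.log w)))) ∧
  ∃ u v : ℕ → ℕ, (∀ a < M, u a ≤ v a ∧ v a ≤ y ∧ ((Ioc (u a) (v a)).filter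
      (fun h => Nat.Coprime (b + h) (primorial w / p))).card = s) ∧
    ∀ a, a + 1 < M → (v a : ℝ) + y / (C * M) ≤ u (a + 1)

/-! ## Parameters -/

/-- Lower bound for the density of the rough integers (Mertens).
Proof.  `om y z ≥ exp(-∑ 1/p - ∑ 1/p²)`, and `Pool.Agent.Helper69.LG.me`. -/
def StmtOM : Prop := ∃ c : ℝ, 0 < c ∧ ∀ y z : ℕ, 2 ≤ y → y ≤ z →
  c * (Real.log y / Real.log z) ≤ om y z

/-- The parameters.
Proof.  `E = ⌊√(3/4 log x)⌋` and `z` from `Pool.Agent.Helper88.RR.scale` as in `GM/KX.lean`;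
`w = ⌊log x/(C log log x)⌋`, `y = ⌈c Rec x⌉`.  `log w = log log x (1 + o(1))`,
`y = c C w (log w)^3 (log_3 w)/(log_2 w)^2 (1 + o(1))`, `E log z` between `(log x)/2` and `log x`,
`log E ≥ (log log x)/3`; `om y z ≤ C log y/log z` (`Pool.Agent.Helper37.PP.mp`) and `StmtOM`. -/
def StmtPM : Prop := ∃ A : ℝ, 1 ≤ A ∧ ∀ (B C c : ℝ) (E0 : ℕ), 1 ≤ B → 1 ≤ C → 0 < c → c ≤ 1 →
  ∃ x0 : ℕ, ∀ x : ℕ, x0 ≤ x → ∃ E z w y : ℕ, E0 ≤ E ∧ Sr E z x y ∧ y ≤ z ∧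
    √(Real.log x) ≤ w ∧ C * (w * Real.log (Real.log x)) ≤ Real.log x ∧
    primorial w ∣ QQ x ∧ w * Real.log w ≤ y ∧ (y : ℝ) ≤ w * Real.log w ^ 4 ∧
    c * Rec x ≤ y ∧
    y * Real.log (Real.log w) ^ 2 / (Real.log w ^ 2 * Real.log (Real.log (Real.log w))) * om y z
      ≤ A * c * (E * Real.log E) ∧
    Real.log w / (A * Real.log x) ≤ om y z / E ∧ om y z / E ≤ A * Real.log w / Real.log x ∧
    B * (Real.log x * Real.log w) ≤ y

/-- The number of primes `n + j` in the class.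
Proof.  `m = n + j`: `∑_{n ∈ NI} pw x (n+j)` is the sum of `pw x m` over `m ≡ b + j (q)`,
`x/32 + j < m ≤ x + j`; `pw x m = 0` for `m ≤ x/16` and `m ≥ x`, so it is `th x q (b+j)`.  By
`StmtPX`, `≥ c x/(φ(q) log x)`, and `q/φ(q) ≥ c log w` (all primes `≤ w` except one). -/
def StmtPJ : Prop := ∃ c C : ℝ, 0 < c ∧ 1 ≤ C ∧ ∃ x0 : ℕ, ∀ x w : ℕ, x0 ≤ x →
  √(Real.log x) ≤ w → C * (w * Real.log (Real.log x)) ≤ Real.log x →
  ∃ p : ℕ, p.Prime ∧ p ≤ w ∧ ∀ b j : ℕ, b < primorial w / p → (j : ℝ) ≤ Real.log x ^ 3 →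
  Nat.Coprime (b + j) (primorial w / p) →
  c * (XI (x / 32) x (primorial w / p) * (Real.log w / Real.log x))
    ≤ ∑ n ∈ NI (x / 32) x (primorial w / p) b, pw x (n + j)

/-- The window.
Proof.  `w, p, q = primorial w/p` from `StmtPM`, `StmtPJ` (`q ∣ QQ x`), `o = om y z/E`,
`X = XI (x/32) x q`, `K' = k + 2`.  `StmtPJ` and `StmtPM`: for `(b+j, q) = 1`,
`∑_n pw x (n+j) ≥ c₂ X o` with an absolute `c₂`.  Let `C_P` be from `StmtPQ`,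
`δ = c₂/(8 K' C_P)` (`≤ 1`), `s = ⌈δ/o⌉`, so `δ ≤ o s ≤ 2δ` and
`s ≤ 2 δ A log x/log w + 1 ≤ y/(log w)²` (`B = 2A + 1` in `StmtPM`); `M = ⌈32 K'/(δ c₂)⌉ ≤ C k²`;
`η ≤ min(1, δ c₂/32, c₂/8)`.  `StmtRC` gives `b` and the blocks; `J` the points `h` of the blocks
with `(b+h, q) = 1` (exactly `M s`), `P` the other `h ≤ y` with `(b+h, q) = 1`;
`#P om y z ≤ C A c (E log E) ≤ min(c_K, 1/2) E log E` if the absolute constant `c` in `StmtPM` is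
small (`c_K` from `StmtKR`).  With `Wt² = Wt E z y P n ^ 2`, sums over `n ∈ NI (x/32) x q b`:
`∑ Wt² #{j ∈ J : n+j prime} ≥ Dt M s ((1-η) c₂ X o - η X o) ≥ X Dt M δ c₂/2` (`StmtLQ`,
`pw ≤ 1`);
`∑ Wt² #{pairs of primes n+j, n+j' in one block} ≤ M s² C_P X Dt o²/2 ≤ 2 M C_P δ² X Dt` (`StmtPQ`;
a prime `n + j > w` has `(b+j, q) = 1`);
`∑ Wt² ≤ (1+η) X Dt` (`GM.StmtS1`, `1 ≤ Dt`, with `u = x/32, v = x, t = 0`, `StmtVP`);
`∑ Wt² #{h ∈ P : n+h prime} ≤ η X Dt` (`StmtKR`).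
So `∑ Wt² (N - K' pairs - K' - M killed) ≥ X Dt (M δ c₂/2 - 2 K' M C_P δ² - K'(1+η) - M η) > 0`
(`2 K' C_P δ² = δ c₂/4`).  Take `n` with a positive bracket.  For every block
`N_a - K' N_a (N_a - 1)/2 ≤ 1`, so `N - K' pairs ≤ M` and `killed = 0`.  If `h ≤ y` is in no block,
`n + h` is not prime: `h ∈ P`, or `(n+h, q) > 1` and `n + h > w`. -/
def StmtFR : Prop := ∃ c : ℝ, 0 < c ∧ ∀ k : ℕ, 1 ≤ k → ∃ x0 : ℕ, ∀ x : ℕ, x0 ≤ x →
  ∃ (n y M : ℕ) (u v : ℕ → ℕ), 2 ≤ n ∧ n ≤ x ∧ (y : ℝ) ≤ Real.log x ^ 2 ∧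
    (∀ a < M, u a ≤ v a ∧ v a ≤ y) ∧
    (∀ a, a + 1 < M → (v a : ℝ) + c / k ^ 2 * Rec x ≤ u (a + 1)) ∧
    (∀ h ∈ Icc 1 y, (∀ a < M, h ∉ Ioc (u a) (v a)) → ¬ (n + h).Prime) ∧
    (k : ℝ) + 2 < ∑ a ∈ range M,
      (((((Ioc (u a) (v a)).filter (fun j => (n + j).Prime)).card : ℝ)
        - ((k : ℝ) + 2) * ((((Ioc (u a) (v a)).filter (fun j => (n + j).Prime)).card : ℝ) *
          ((((Ioc (u a) (v a)).filter (fun j => (n + j).Prime)).card : ℝ) - 1) / 2)))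

/-- From the window to consecutive primes (`CG.StmtF2` with general blocks).
Proof.  Blocks with exactly one prime: `s₁` of them, with at least two: `s₂`.  A block with `N ≥ 2`
contributes at most `2 - (k+2) = -k`, so `s₁ > k + 2 + k s₂ ≥ k (s₂ + 1)`, and there are `k + 1`
blocks with exactly one prime such that all blocks between them have no prime.  Their primes are
consecutive, and those of different blocks `a < a'` differ by more than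
`u a' - v a ≥ U`. -/
def StmtG2 : Prop := ∀ (k n y M U : ℕ) (u v : ℕ → ℕ), 1 ≤ k → (∀ a < M, u a ≤ v a ∧ v a ≤ y) →
  (∀ a, a + 1 < M → v a + U ≤ u (a + 1)) →
  (∀ h ∈ Icc 1 y, (∀ a < M, h ∉ Ioc (u a) (v a)) → ¬ (n + h).Prime) →
  (k : ℝ) + 2 < ∑ a ∈ range M,
      (((((Ioc (u a) (v a)).filter (fun j => (n + j).Prime)).card : ℝ)
        - ((k : ℝ) + 2) * ((((Ioc (u a) (v a)).filter (fun j => (n + j).Prime)).card : ℝ) *
          ((((Ioc (u a) (v a)).filter (fun j => (n + j).Prime)).card : ℝ) - 1) / 2))) →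
  ∃ s : ℕ, Nat.nth Nat.Prime (s + k) ≤ n + y ∧
    ∀ i < k, Nat.nth Nat.Prime (s + i) + U < Nat.nth Nat.Prime (s + i + 1)

/-- THE MAIN THEOREM: chains of gaps of record size.
Proof from `StmtFR`, `StmtG2`: apply them at `⌊x/2⌋`, `U = ⌈c/k² Rec⌉`, as
`Pool/Agent/Helper25/CG/CG.lean`; `Rec ⌊x/2⌋ ≥ Rec x/2`. -/
def StmtCR : Prop := ∃ c : ℝ, 0 < c ∧ ∀ k : ℕ, 1 ≤ k → ∃ X : ℝ, ∀ x : ℝ, X ≤ x → ∃ n : ℕ,
  (Nat.nth Nat.Prime (n + k) : ℝ) ≤ x ∧ ∀ i < k,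
    c / k ^ 2 * (Real.log x * Real.log (Real.log x) ^ 2 *
        Real.log (Real.log (Real.log (Real.log x))) / Real.log (Real.log (Real.log x)) ^ 2)
      ≤ (Nat.nth Nat.Prime (n + i + 1) : ℝ) - Nat.nth Nat.Prime (n + i) - 1

end Pool.Agent.Helper88.CR
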