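import Pool.Agent.Helper88.CR.MainA
import Pool.Agent.Helper38.CR.RN

set_option autoImplicit false

namespace Pool.Agent.Helper88.CR

theorem mCR : StmtCR := mCR' Pool.Agent.Helper38.CR.rn

end Pool.Agent.Helper88.CR
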